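import Mathlib
import Pool.Agent.Helper92.PO.Stmts

namespace Pool.Agent.Helper92.PO

/-- reachable in `m` steps -/
def disR (P : Finset Cell) : ℕ → Cell → Prop
  | 0, a => a = (0, 0)
  | m + 1, a => ∃ b, b ∈ P ∧ disR P m b ∧ Adj b a

theorem dis_adj {a b : Cell} (h : Adj a b) : Adj b a := by
  unfold Adj at *
  rw [abs_sub_comm b.1, abs_sub_comm b.2]
  exact h

theorem dis_exists {P : Finset Cell} (h0 : ((0, 0) : Cell) ∈ P) {a : Cell}
    (h : Relation.ReflTransGen (fun x y => y ∈ P ∧ Adj x y) (0, 0) a) :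
    a ∈ P ∧ ∃ m, disR P m a := by
  induction h with
  | refl => exact ⟨h0, 0, rfl⟩
  | tail _ hbc ih =>
    obtain ⟨hb, m, hm⟩ := ih
    exact ⟨hbc.1, m + 1, _, hb, hm, hbc.2⟩

open Classical in
/-- the distance -/
noncomputable def disD (P : Finset Cell) (a : Cell) : ℕ := sInf {m | disR P m a}

theorem disD_le {P : Finset Cell} {a : Cell} {m : ℕ} (h : disR P m a) : disD P a ≤ m :=
  Nat.sInf_le h

theorem disD_mem {P : Finset Cell} {a : Cell} (h : ∃ m, disR P m a) : disR P (disD P a) a := by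
  have h1 : Set.Nonempty {m | disR P m a} := h
  exact Nat.sInf_mem h1

theorem st_DIS : ST_DIS := by
  intro n P hP
  obtain ⟨hcard, hconn, h0, _⟩ := hP
  have hex : ∀ a ∈ P, ∃ m, disR P m a := fun a ha => (dis_exists h0 (hconn _ h0 a ha)).2
  have hz : disD P (0, 0) = 0 := Nat.le_zero.1 (disD_le (show disR P 0 (0, 0) from rfl))
  have h3 : ∀ a ∈ P, ∀ b ∈ P, Adj a b → disD P a ≤ disD P b + 1 := by
    intro a _ b hb hab
    exact disD_le (show disR P (disD P b + 1) a from ⟨b, hb, disD_mem (hex b hb), dis_adj hab⟩)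
  have h2 : ∀ a ∈ P, a ≠ (0, 0) → ∃ b ∈ P, Adj a b ∧ disD P b + 1 = disD P a := by
    intro a ha ha0
    have hm := disD_mem (hex a ha)
    obtain ⟨m, hm'⟩ : ∃ m, disD P a = m := ⟨_, rfl⟩
    rw [hm'] at hm
    cases m with
    | zero => exact absurd hm ha0
    | succ m =>
      obtain ⟨b, hb, hbm, hba⟩ := hm
      have h4 := disD_le hbm
      have h5 := h3 a ha b hb (dis_adj hba)
      exact ⟨b, hb, dis_adj hba, by omega⟩
  refine ⟨disD P, hz, h2, h3, ?_⟩
  have h6 : ∀ t, ∀ a ∈ P, disD P a = t → Finset.range (t + 1) ⊆ P.image (disD P) := by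
    intro t
    induction t with
    | zero =>
      intro a ha hat x hx
      rw [Finset.mem_range] at hx
      rw [Finset.mem_image]
      exact ⟨a, ha, by omega⟩
    | succ t ih =>
      intro a ha hat x hx
      rw [Finset.mem_range] at hx
      rcases Nat.lt_succ_iff_lt_or_eq.1 hx with h | h
      · have ha0 : a ≠ (0, 0) := by
          rintro rfl
          omega
        obtain ⟨b, hb, _, hb1⟩ := h2 a ha ha0
        exact ih b hb (by omega) (Finset.mem_range.2 h)
      · rw [Finset.mem_image]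
        exact ⟨a, ha, by omega⟩
  intro a ha
  have h7 := Finset.card_le_card (h6 _ a ha rfl)
  rw [Finset.card_range] at h7
  have h8 : (P.image (disD P)).card ≤ P.card := Finset.card_image_le
  omega

end Pool.Agent.Helper92.PO
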