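import Mathlib
import Pool.Agent.Helper92.PO.Stmts

namespace Pool.Agent.Helper92.PO

/-- the neighbour in direction `k` -/
def lbuNb (k : ℕ) (a : Cell) : Cell :=
  if k = 2 then (a.1 - 1, a.2) else if k = 3 then (a.1, a.2 - 1) else
    if k = 4 then (a.1 + 1, a.2) else (a.1, a.2 + 1)

theorem lbu_sm {u v : Lab} : sm u v = true ↔ (u.1 = 0 ∨ v.1 = 0 ∨ (u.2 ≤ v.2 + 1 ∧ v.2 ≤ u.2 + 1)) := by
  simp [sm]

theorem lbu_ispar {v u : Lab} : ispar v u = true ↔ (u.1 ≠ 0 ∧ u.2 + 1 = v.2) := by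
  simp [ispar]

theorem lbu_labs {n : ℕ} {v : Lab} (h : v ∈ labs n) :
    v = (0, 0) ∨ v = (1, 0) ∨ (2 ≤ v.1 ∧ v.1 ≤ 5 ∧ 1 ≤ v.2) := by
  simp only [labs, List.mem_cons, List.mem_flatMap, List.mem_range, List.not_mem_nil, or_false] at h
  rcases h with h | h | ⟨d, _, h⟩
  · exact Or.inl h
  · exact Or.inr (Or.inl h)
  · right
    right
    rcases h with h | h | h | h <;> rw [h] <;> simp

theorem lbu_loc {n : ℕ} {P : Finset Cell} {c : Cell → Lab} (h : Val n P c) (a : Cell) {k : ℕ}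
    (hk : 2 ≤ k) (hk' : k ≤ 5) :
    (sm (c a) (c (lbuNb k a)) = true ∨ sm (c (lbuNb k a)) (c a) = true) ∧
      par k (c a) (c (lbuNb k a)) = true := by
  obtain ⟨_, _, _, hH, hV⟩ := h
  have hk2 : k = 2 ∨ k = 3 ∨ k = 4 ∨ k = 5 := by omega
  rcases hk2 with rfl | rfl | rfl | rfl
  · have h1 := hH (a.1 - 1, a.2)
    simp only [sub_add_cancel, Prod.mk.eta, Hc, Bool.and_eq_true] at h1
    simp only [lbuNb, if_true]
    exact ⟨Or.inr h1.1, h1.2.1⟩
  · have h1 := hV (a.1, a.2 - 1)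
    simp only [sub_add_cancel, Prod.mk.eta, Vc, Bool.and_eq_true] at h1
    have h2 : lbuNb 3 a = (a.1, a.2 - 1) := by simp [lbuNb]
    rw [h2]
    exact ⟨Or.inr h1.1, h1.2.1⟩
  · have h1 := hH a
    simp only [Hc, Bool.and_eq_true] at h1
    have h2 : lbuNb 4 a = (a.1 + 1, a.2) := by simp [lbuNb]
    rw [h2]
    exact ⟨Or.inl h1.1, h1.2.2⟩
  · have h1 := hV a
    simp only [Vc, Bool.and_eq_true] at h1
    have h2 : lbuNb 5 a = (a.1, a.2 + 1) := by simp [lbuNb]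
    rw [h2]
    exact ⟨Or.inl h1.1, h1.2.2⟩

/-- depths of neighbouring cells -/
theorem lbu_depth {n : ℕ} {P : Finset Cell} {c : Cell → Lab} (h : Val n P c) {a : Cell} {k : ℕ}
    (hk : 2 ≤ k) (hk' : k ≤ 5) (ha : a ∈ P) (hb : lbuNb k a ∈ P) :
    (c a).2 ≤ (c (lbuNb k a)).2 + 1 := by
  have h1 := (h.1 a).1 ha
  have h2 := (h.1 (lbuNb k a)).1 hb
  rcases (lbu_loc h a hk hk').1 with h3 | h3
  · rcases lbu_sm.1 h3 with h4 | h4 | h4
    · exact absurd h4 h1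
    · exact absurd h4 h2
    · exact h4.1
  · rcases lbu_sm.1 h3 with h4 | h4 | h4
    · exact absurd h4 h2
    · exact absurd h4 h1
    · exact h4.2

/-- the kind of a cell -/
theorem lbu_kind {n : ℕ} {P : Finset Cell} {c : Cell → Lab} (h : Val n P c) {a : Cell}
    (ha : a ∈ P) (ha0 : a ≠ (0, 0)) : 2 ≤ (c a).1 ∧ (c a).1 ≤ 5 := by
  rcases lbu_labs (h.2.1 a) with h1 | h1 | h1
  · exact absurd (by rw [h1]) ((h.1 a).1 ha)
  · exact absurd ((h.2.2.1 a).1 (by rw [h1])) ha0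
  · exact ⟨h1.1, h1.2.1⟩

/-- the parent -/
theorem lbu_parent {n : ℕ} {P : Finset Cell} {c : Cell → Lab} (h : Val n P c) {a : Cell}
    (ha : a ∈ P) (ha0 : a ≠ (0, 0)) :
    lbuNb (c a).1 a ∈ P ∧ (c (lbuNb (c a).1 a)).2 + 1 = (c a).2 := by
  obtain ⟨h1, h2⟩ := lbu_kind h ha ha0
  have h3 := (lbu_loc h a h1 h2).2
  rw [par, if_neg (by omega), if_pos rfl, lbu_ispar] at h3
  exact ⟨(h.1 _).2 h3.1, h3.2⟩

theorem lbu_first {n : ℕ} {P : Finset Cell} {c : Cell → Lab} (h : Val n P c) {a : Cell} {k : ℕ}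
    (hk : 2 ≤ k) (hk' : k < (c a).1) (ha : a ∈ P) (ha0 : a ≠ (0, 0)) :
    ¬ (lbuNb k a ∈ P ∧ (c (lbuNb k a)).2 + 1 = (c a).2) := by
  obtain ⟨_, h2⟩ := lbu_kind h ha ha0
  have h3 := (lbu_loc h a hk (by omega)).2
  rw [par, if_neg (by omega), if_neg (by omega), if_pos hk', Bool.not_eq_true'] at h3
  rintro ⟨h4, h5⟩
  have h6 := lbu_ispar.2 ⟨(h.1 _).1 h4, h5⟩
  rw [h6] at h3
  exact absurd h3 (by simp)

theorem lbu_le {n : ℕ} {P : Finset Cell} {c c' : Cell → Lab} (h : Val n P c) (h' : Val n P c') :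
    ∀ d, ∀ a ∈ P, (c a).2 = d → (c' a).2 ≤ d := by
  intro d
  induction d using Nat.strong_induction_on with
  | _ d ih =>
    intro a ha had
    by_cases ha0 : a = (0, 0)
    · rcases lbu_labs (h'.2.1 a) with h1 | h1 | h1
      · rw [h1]; simp
      · rw [h1]; simp
      · have := (h'.2.2.1 a).2 ha0
        omega
    · obtain ⟨hb, hbd⟩ := lbu_parent h ha ha0
      obtain ⟨hk, hk'⟩ := lbu_kind h ha ha0
      have h1 := ih (c (lbuNb (c a).1 a)).2 (by omega) _ hb rfl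
      have h2 := lbu_depth h' hk hk' ha hb
      omega

theorem lbu_kle {n : ℕ} {P : Finset Cell} {c c' : Cell → Lab} (h : Val n P c) (h' : Val n P c')
    {a : Cell} (ha : a ∈ P) (ha0 : a ≠ (0, 0)) : ¬ (c a).1 < (c' a).1 := by
  intro hlt
  have hd : ∀ b ∈ P, (c b).2 = (c' b).2 := fun b hb =>
    le_antisymm (lbu_le h' h _ b hb rfl) (lbu_le h h' _ b hb rfl)
  obtain ⟨hb, hbd⟩ := lbu_parent h ha ha0
  obtain ⟨hk, _⟩ := lbu_kind h ha ha0
  apply lbu_first h' hk hlt ha ha0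
  exact ⟨hb, by rw [← hd _ hb, ← hd _ ha]; exact hbd⟩

theorem st_LBU : ST_LBU := by
  intro n P c c' h h'
  funext a
  by_cases ha : a ∈ P
  · have hd : (c a).2 = (c' a).2 :=
      le_antisymm (lbu_le h' h _ a ha rfl) (lbu_le h h' _ a ha rfl)
    by_cases ha0 : a = (0, 0)
    · have h1 := (h.2.2.1 a).2 ha0
      have h2 := (h'.2.2.1 a).2 ha0
      exact Prod.ext (by rw [h1, h2]) hd
    · have h1 := lbu_kle h h' ha ha0
      have h2 := lbu_kle h' h ha ha0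
      exact Prod.ext (by omega) hd
  · have key : ∀ c : Cell → Lab, Val n P c → c a = (0, 0) := by
      intro c h
      have h0 : (c a).1 = 0 := by
        by_contra h1
        exact ha ((h.1 a).2 h1)
      rcases lbu_labs (h.2.1 a) with h1 | h1 | h1
      · exact h1
      · rw [h1] at h0
        exact absurd h0 (by simp)
      · omega
    rw [key c h, key c' h']

end Pool.Agent.Helper92.PO
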