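import Mathlib
import Pool.Agent.Helper92.PO.Stmts

namespace Pool.Agent.Helper92.PO

open Function Pool.Agent.Helper52.Poly

theorem pnn_sz (c : Inp) : sz c = 1 + sz c.1.1 + sz c.1.2 := by
  have h : sz c = sz (c.1.1, c.1.2) := rfl
  rw [h, sz_pair]

theorem pnn_val : PF (fun c : Inp => c.1) :=
  PF.dom (PF.id : PF (fun a : List Bool × List Bool => a)) (fun c : Inp => c.1) (fun _ => rfl)

theorem st_PNN : ST_PNN := by
  refine ⟨⟨PF.length (PF.snd' pnn_val), Polynomial.X, fun c => ?_⟩, fun c => ?_⟩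
  · rw [Polynomial.eval_X, pnn_sz]
    have := length_le_sz c.1.2
    unfold nn
    omega
  · rw [pnn_sz]
    have h1 := length_le_sz c.1.1
    have h2 := c.2
    unfold nn
    omega

end Pool.Agent.Helper92.PO
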